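import Pool.Agent.H66.AE4
import Pool.Graph.R_seed8.Helper153.FrkM
set_option autoImplicit false
open Finset

namespace Pool.Agent.Results.MP_f155e9_co.FewExtreme

/-- The conjectured bound `|F| ≤ C(n, ⌈(n+k)/2⌉)` for antichains `F` of subsets of an `n`-set with
`|A Δ B| ≤ n - k` for all members, `n - k` of either parity, `s = ⌊(n-k)/2⌋` and `n ≥ 10 s`, for all
`F` with at most `(1 - 9 s / n) C(n, s)` members of size at most `s` and at most
`(1 - 9 s / n) C(n, s)` members of size at least `n - s`. -/
theorem result (n k s : ℕ) (hk : 1 ≤ k) (hkn : k ≤ n) (hs : s = (n - k) / 2) (hn : 10 * s ≤ n)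
    (F : Finset (Finset (Fin n)))
    (hF : IsAntichain (· ⊆ ·) (F : Set (Finset (Fin n))))
    (hd : ∀ A ∈ F, ∀ B ∈ F, (symmDiff A B).card ≤ n - k)
    (hlow : n * (F.filter (fun A => A.card ≤ s)).card ≤ (n - 9 * s) * n.choose s)
    (hhigh : n * (F.filter (fun A => n ≤ A.card + s)).card ≤ (n - 9 * s) * n.choose s) :
    F.card ≤ n.choose ((n + k + 1) / 2) := by
  by_cases hs4 : n - k ≤ 4
  · exact FrM.small_diam n k hk hkn F hF hd hs4
  · rw [Pool.Agent.H173R2.AntiDiam.choose_flip n k hkn, ← hs]
    refine Pool.Agent.H66.AE.few_extreme n s ((n - k) % 2) (by omega) (by omega) hn F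
      ?_ ?_ hlow hhigh
    · intro A hA B hB hAB
      by_contra h
      exact hF hA hB h hAB
    · intro A hA B hB
      have h := hd A hA B hB
      rw [symmDiff_def, sup_eq_union, card_union_of_disjoint disjoint_sdiff_sdiff] at h
      have e : 2 * s + (n - k) % 2 = n - k := by omega
      rw [e]
      exact h

end Pool.Agent.Results.MP_f155e9_co.FewExtreme
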