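import Pool.Agent.H66.AH5
import Pool.Graph.R_seed8.Helper153.FrkM
set_option autoImplicit false
open Finset

namespace Pool.Agent.Results.MP_f155e9_co.LinearRange

/-- The conjectured bound `|F| ≤ C(n, ⌈(n+k)/2⌉)` for all antichains `F` of subsets of an `n`-set
with `|A Δ B| ≤ n - k` for all members, whenever `1 ≤ k ≤ n` and `n ≥ 21 (n - k)` (either parity
of `n - k`). -/
theorem result (n k : ℕ) (hk : 1 ≤ k) (hkn : k ≤ n) (hlin : 21 * (n - k) ≤ n)
    (F : Finset (Finset (Fin n)))
    (hF : IsAntichain (· ⊆ ·) (F : Set (Finset (Fin n))))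
    (hd : ∀ A ∈ F, ∀ B ∈ F, (symmDiff A B).card ≤ n - k) :
    F.card ≤ n.choose ((n + k + 1) / 2) := by
  by_cases hs : n - k ≤ 4
  · exact FrM.small_diam n k hk hkn F hF hd hs
  · rw [Pool.Agent.H173R2.AntiDiam.choose_flip n k hkn]
    obtain ⟨r, hr⟩ : ∃ r, r = (n - k) / 2 := ⟨_, rfl⟩
    rw [← hr]
    have hanti : ∀ A ∈ F, ∀ B ∈ F, A ⊆ B → A = B := by
      intro A hA B hB hAB
      by_contra h
      exact hF hA hB h hAB
    have hd' : ∀ A ∈ F, ∀ B ∈ F, (A \ B).card + (B \ A).card ≤ n - k := by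
      intro A hA B hB
      have h := hd A hA B hB
      rwa [symmDiff_def, sup_eq_union, card_union_of_disjoint disjoint_sdiff_sdiff] at h
    rcases Nat.even_or_odd (n - k) with ⟨q, hq⟩ | ⟨q, hq⟩
    · have e : n - k = 2 * r := by omega
      rw [e] at hd'
      exact Pool.Agent.H66.AF.even_linear n r (by omega) (by omega) F hanti hd'
    · have e : n - k = 2 * r + 1 := by omega
      rw [e] at hd'
      exact Pool.Agent.H66.AH.odd_linear_all n r (by omega) (by omega) F hanti hd'

end Pool.Agent.Results.MP_f155e9_co.LinearRange
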