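import Pool.Agent.H66.AD4
set_option autoImplicit false
open Finset

namespace Pool.Agent.Results.MP_f155e9_co.TwoCentres

/-- The conjectured bound `|F| ≤ C(n, ⌈(n+k)/2⌉)` for antichains `F` of subsets of an `n`-set with
`|A Δ B| ≤ n - k` for all members (`1 ≤ k ≤ n`), in four situations; write `s = ⌊(n-k)/2⌋`.
(1) `n - k = 6` and `n - k = 8`.
(2) `n - k` even and all sizes of members in an interval of ten consecutive integers
`p, ..., p + 9` with `s - 2 ≤ p` and `p + 9 ≤ n - s + 2`.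
(3) At most four sizes `a < b < c < d`, all between `s` and `n - s`, where for odd `n - k` the two
middle ones are not consecutive integers.
(4) The two-centre theorem: `F = L ∪ H` and there are levels `s ≤ m ≤ m' ≤ n - s` such that
`||A| - m| + ||B| - m'| + ε < m' - m` for all `A ∈ L`, `B ∈ H`, and the sizes of members of `L`
less than `m` differ by at most `1 - ε`, and so do those greater than `m`, and likewise for `H` and
`m'`; here `ε = (n - k) mod 2`. -/
theorem result :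
    (∀ n k : ℕ, 1 ≤ k → k ≤ n → (n - k = 6 ∨ n - k = 8) →
      ∀ F : Finset (Finset (Fin n)),
        IsAntichain (· ⊆ ·) (F : Set (Finset (Fin n))) →
        (∀ A ∈ F, ∀ B ∈ F, (symmDiff A B).card ≤ n - k) →
        F.card ≤ n.choose ((n + k + 1) / 2)) ∧
    (∀ n k p : ℕ, 1 ≤ k → k ≤ n → Even (n - k) →
      (n - k) / 2 ≤ p + 2 → p + 7 + (n - k) / 2 ≤ n →
      ∀ F : Finset (Finset (Fin n)),
        IsAntichain (· ⊆ ·) (F : Set (Finset (Fin n))) →
        (∀ A ∈ F, ∀ B ∈ F, (symmDiff A B).card ≤ n - k) →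
        (∀ A ∈ F, p ≤ A.card ∧ A.card ≤ p + 9) →
        F.card ≤ n.choose ((n + k + 1) / 2)) ∧
    (∀ n k a b c d : ℕ, 1 ≤ k → k ≤ n → a < b → b + (n - k) % 2 < c → c < d →
      (n - k) / 2 ≤ a → d + (n - k) / 2 ≤ n →
      ∀ F : Finset (Finset (Fin n)),
        IsAntichain (· ⊆ ·) (F : Set (Finset (Fin n))) →
        (∀ A ∈ F, ∀ B ∈ F, (symmDiff A B).card ≤ n - k) →
        (∀ A ∈ F, A.card = a ∨ A.card = b ∨ A.card = c ∨ A.card = d) →
        F.card ≤ n.choose ((n + k + 1) / 2)) ∧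
    (∀ n k m m' : ℕ, 1 ≤ k → k ≤ n → (n - k) / 2 ≤ m → m ≤ m' → m' + (n - k) / 2 ≤ n →
      ∀ L H : Finset (Finset (Fin n)),
        IsAntichain (· ⊆ ·) ((L ∪ H : Finset (Finset (Fin n))) : Set (Finset (Fin n))) →
        (∀ A ∈ L ∪ H, ∀ B ∈ L ∪ H, (symmDiff A B).card ≤ n - k) →
        (∀ A ∈ L, ∀ B ∈ L, (A.card < m ∧ B.card < m) ∨ (m < A.card ∧ m < B.card) →
          A.card + (n - k) % 2 ≤ B.card + 1) →
        (∀ A ∈ H, ∀ B ∈ H, (A.card < m' ∧ B.card < m') ∨ (m' < A.card ∧ m' < B.card) →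
          A.card + (n - k) % 2 ≤ B.card + 1) →
        (∀ A ∈ L, ∀ B ∈ H, Nat.dist A.card m + Nat.dist B.card m' + (n - k) % 2 < m' - m) →
        (L ∪ H).card ≤ n.choose ((n + k + 1) / 2)) := by
  have flip : ∀ n k : ℕ, k ≤ n → n.choose ((n + k + 1) / 2) = n.choose ((n - k) / 2) :=
    fun n k h => Pool.Agent.H173R2.AntiDiam.choose_flip n k h
  have conv1 : ∀ (n : ℕ) (F : Finset (Finset (Fin n))),
      IsAntichain (· ⊆ ·) (F : Set (Finset (Fin n))) → ∀ A ∈ F, ∀ B ∈ F, A ⊆ B → A = B := by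
    intro n F hF A hA B hB hAB
    by_contra h
    exact hF hA hB h hAB
  have conv2 : ∀ (n D : ℕ) (F : Finset (Finset (Fin n))),
      (∀ A ∈ F, ∀ B ∈ F, (symmDiff A B).card ≤ D) →
      ∀ A ∈ F, ∀ B ∈ F, (A \ B).card + (B \ A).card ≤ D := by
    intro n D F hF A hA B hB
    have h := hF A hA B hB
    rw [symmDiff_def, sup_eq_union, card_union_of_disjoint disjoint_sdiff_sdiff] at h
    exact h
  refine ⟨?_, ?_, ?_, ?_⟩
  · intro n k hk hkn h F hF hd
    rw [flip n k hkn]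
    have a1 := conv1 n F hF
    have a2 := conv2 n _ F hd
    rcases h with h | h
    · rw [h] at a2 ⊢
      exact Pool.Agent.H66.AD.diam6 (by omega) F a1 a2
    · rw [h] at a2 ⊢
      exact Pool.Agent.H66.AD.diam8 n (by omega) F a1 a2
  · intro n k p hk hkn he h1 h2 F hF hd hsz
    rw [flip n k hkn]
    refine Pool.Agent.H66.AD.ten ((n - k) / 2) p h1 h2 F (conv1 n F hF) ?_ hsz
    obtain ⟨r, hr⟩ := he
    have e : 2 * ((n - k) / 2) = n - k := by omega
    rw [e]
    exact conv2 n _ F hd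
  · intro n k a b c d hk hkn hab hbc hcd h1 h2 F hF hd hsz
    rw [flip n k hkn]
    refine Pool.Agent.H66.AD.four ((n - k) / 2) ((n - k) % 2) a b c d (by omega) hab hbc hcd h1 h2 F
      (conv1 n F hF) ?_ hsz
    have e : 2 * ((n - k) / 2) + (n - k) % 2 = n - k := by omega
    rw [e]
    exact conv2 n _ F hd
  · intro n k m m' hk hkn h1 h2 h3 L H hF hd hL hH hcut
    rw [flip n k hkn]
    refine Pool.Agent.H66.AD.main ((n - k) / 2) ((n - k) % 2) m m' (by omega) h1 h2 h3 (L ∪ H) L H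
      rfl (conv1 n _ hF) ?_ (fun A hA B hB h4 h5 => hL A hA B hB (Or.inl ⟨h4, h5⟩))
      (fun A hA B hB h4 h5 => hL A hA B hB (Or.inr ⟨h4, h5⟩))
      (fun A hA B hB h4 h5 => hH A hA B hB (Or.inl ⟨h4, h5⟩))
      (fun A hA B hB h4 h5 => hH A hA B hB (Or.inr ⟨h4, h5⟩)) hcut
    have e : 2 * ((n - k) / 2) + (n - k) % 2 = n - k := by omega
    rw [e]
    exact conv2 n _ _ hd

end Pool.Agent.Results.MP_f155e9_co.TwoCentres
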